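import Mathlib
import Pool.Agent.H33R4.PB2
import Pool.Agent.H33R4.DLOG

/-!
# The index of `ℤ[θ]` and a quantitative form of the relation between the logarithms
-/

set_option autoImplicit false

namespace Pool.Agent.R89.LQ

open Polynomial NumberField Pool.Agent.H33R4 Pool.Agent.H33R4.PB

section order

variable {K : Type} [Field K] [NumberField K] {θ : K} {g : ℤ[X]}

theorem exists_y (hg : g.Monic) (h : aeval θ g = 0) (hd : Module.finrank ℚ K = g.natDegree)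
    (ht : IntermediateField.adjoin ℚ {θ} = ⊤) {A : ℤ[X]} {δ : ℤ}
    (hA : g ∣ derivative g * A - C δ) :
    ∀ x : 𝓞 K, ∃ y : AdjoinRoot g, ps hg h y = ((δ ^ g.natDegree : ℤ) : 𝓞 K) * x := by
  have hi := integral hg h
  have hiq : IsIntegral ℚ θ := hi.tower_top
  have htop : Algebra.adjoin ℚ {θ} = ⊤ := by
    rw [← IntermediateField.adjoin_simple_toSubalgebra_of_isAlgebraic hiq.isAlgebraic, ht]
    rfl
  set Bs := PowerBasis.ofAdjoinEqTop hiq htop with hBs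
  have hgen : Bs.gen = θ := by
    rw [hBs]; exact PowerBasis.ofAdjoinEqTop_gen _ _
  have hgi : IsIntegral ℤ Bs.gen := by rw [hgen]; exact hi
  have hdisc := Algebra.discr_powerBasis_eq_norm ℚ Bs
  rw [hgen, minpoly.isIntegrallyClosed_eq_field_fractions' ℚ hi, minpoly_eq hg h hd ht] at hdisc
  -- the norm of the derivative
  have h1 : aeval θ (derivative (g.map (algebraMap ℤ ℚ))) * aeval θ A = (δ : K) := by
    obtain ⟨q, hq⟩ := hA
    have h2 := congrArg (aeval θ) hq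
    rw [map_mul, h, zero_mul, map_sub, map_mul, sub_eq_zero] at h2
    rw [Polynomial.derivative_map, Polynomial.aeval_map_algebraMap, h2]
    simp
  have h3 : Algebra.norm ℚ (aeval θ (derivative (g.map (algebraMap ℤ ℚ)))) *
      Algebra.norm ℚ (aeval θ A) = (δ : ℚ) ^ g.natDegree := by
    rw [← map_mul, h1, ← hd]
    have h4 : Algebra.norm ℚ (algebraMap ℚ K (δ : ℚ)) = (δ : ℚ) ^ Module.finrank ℚ K :=
      Algebra.norm_algebraMap _
    rw [map_intCast] at h4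
    exact h4
  have h5 : IsIntegral ℤ (Algebra.norm ℚ (aeval θ A)) := by
    apply Algebra.isIntegral_norm
    exact IsIntegral.of_mem_of_fg (Algebra.adjoin ℤ {θ}) hi.fg_adjoin_singleton _
      (Polynomial.aeval_mem_adjoin_singleton ℤ θ)
  obtain ⟨b, hb⟩ := IsIntegrallyClosed.isIntegral_iff.mp h5
  intro x
  have h6 := Algebra.discr_mul_isIntegral_mem_adjoin (R := ℤ) (K := ℚ) (B := Bs) hgi
    (z := (x : K)) x.2
  rw [hgen, Algebra.adjoin_singleton_eq_range_aeval] at h6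
  obtain ⟨P, hP⟩ := h6
  have hP' : aeval θ P = Algebra.discr ℚ Bs.basis • (x : K) := hP
  set e := Module.finrank ℚ K * (Module.finrank ℚ K - 1) / 2 with he
  refine ⟨AdjoinRoot.mk g (C ((-1) ^ e * b) * P), ?_⟩
  apply RingOfIntegers.ext
  rw [ps_mk, map_mul, hP', hdisc, aeval_C]
  have h7 : ((δ : ℚ) ^ g.natDegree : ℚ) = Algebra.norm ℚ (aeval θ (derivative (g.map
      (algebraMap ℤ ℚ)))) * (b : ℚ) := by
    rw [← h3, ← hb]
    simp
  have h8 : (((((δ ^ g.natDegree : ℤ) : 𝓞 K) * x : 𝓞 K)) : K) =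
      algebraMap ℚ K ((δ : ℚ) ^ g.natDegree) * (x : K) := by
    simp
  rw [h8, h7]
  simp only [Algebra.smul_def, map_mul, map_pow, map_neg, map_one, map_intCast, algebraMap_int_eq,
    eq_intCast, Int.cast_mul, Int.cast_pow, Int.cast_neg, Int.cast_one]
  have h9 : ((-1 : K) ^ e) * ((-1 : K) ^ e) = 1 := by
    rw [← mul_pow]; simp
  linear_combination ((b : K) * (algebraMap ℚ K) ((Algebra.norm ℚ)
    ((aeval θ) (derivative (Polynomial.map (Int.castRingHom ℚ) g)))) * (x : K)) * h9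

end order

section cong

variable {p : ℕ} [Fact p.Prime]

theorem c0_of {g : ℤ[X]} {K : Type} [Field K] [NumberField K] {θ : K} (hg : g.Monic)
    (h : aeval θ g = 0) (hd : Module.finrank ℚ K = g.natDegree)
    (ht : IntermediateField.adjoin ℚ {θ} = ⊤) {S : Type} [CommRing S] (ι : ℤ_[p] →+* S)
    (tf : ∀ b : S, (p : S) * b = 0 → b = 0) (φ : AdjoinRoot g →+* S)
    (m : ℤ) (hm : ∀ x : 𝓞 K, ∃ y : AdjoinRoot g, ps hg h y = m * x)
    (c0 : ℕ) (v : ℤ_[p]ˣ) (hspec : (m : ℤ_[p]) = (v : ℤ_[p]) * (p : ℤ_[p]) ^ c0)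
    (N : ℕ) (ρ : AdjoinRoot g) (hρ : ((p : ℕ) : 𝓞 K) ^ (N + c0) ∣ ps hg h ρ - 1) :
      (p : S) ^ N ∣ φ ρ - 1 := by
  obtain ⟨x, hx⟩ := hρ
  obtain ⟨y, hy⟩ := hm x
  -- in `ℤ[θ]`
  have h1 : (m : AdjoinRoot g) * (ρ - 1) = (p : AdjoinRoot g) ^ (N + c0) * y := by
    apply ps_inj hg h hd ht
    rw [map_mul, map_mul, map_sub, map_one, map_intCast, map_pow, map_natCast, hx, hy]
    ring
  have h2 := congrArg φ h1
  rw [map_mul, map_mul, map_sub, map_one, map_intCast, map_pow, map_natCast] at h2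
  have h3 : (m : S) = ι (v : ℤ_[p]) * (p : S) ^ c0 := by
    have := congrArg ι hspec
    rw [map_intCast, map_mul, map_pow, map_natCast] at this
    exact this
  have h4 : ι ((v⁻¹ : ℤ_[p]ˣ) : ℤ_[p]) * ι (v : ℤ_[p]) = 1 := by
    rw [← map_mul, Units.inv_mul, map_one]
  refine ⟨ι ((v⁻¹ : ℤ_[p]ˣ) : ℤ_[p]) * φ y, ?_⟩
  have h5 : (p : S) ^ c0 * (φ ρ - 1 - (p : S) ^ N *
      (ι ((v⁻¹ : ℤ_[p]ˣ) : ℤ_[p]) * φ y)) = 0 := by
    rw [h3] at h2
    calc (p : S) ^ c0 * (φ ρ - 1 - (p : S) ^ N *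
          (ι ((v⁻¹ : ℤ_[p]ˣ) : ℤ_[p]) * φ y))
        = (p : S) ^ c0 * (φ ρ - 1) * 1 - ι ((v⁻¹ : ℤ_[p]ˣ) : ℤ_[p]) *
          ((p : S) ^ (N + c0) * φ y) := by rw [pow_add]; ring
      _ = (p : S) ^ c0 * (φ ρ - 1) *
          (ι ((v⁻¹ : ℤ_[p]ˣ) : ℤ_[p]) * ι (v : ℤ_[p])) -
          ι ((v⁻¹ : ℤ_[p]ˣ) : ℤ_[p]) *
          (ι (v : ℤ_[p]) * (p : S) ^ c0 * (φ ρ - 1)) := by
            rw [h4, h2]
      _ = 0 := by ring
  exact sub_eq_zero.mp (tf_pow tf c0 _ h5)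

theorem rel_dvd (hB : LogB) {g : ℤ[X]} {K : Type} [Field K] [NumberField K]
    {θ : K} (hg : g.Monic) (h : aeval θ g = 0) {r : ℕ}
    {S : Type} [CommRing S] (hG : PGood p S) (φ : AdjoinRoot g →+* S) (c0 : ℕ)
    (hc0 : ∀ (N : ℕ) (ρ : AdjoinRoot g), ((p : ℕ) : 𝓞 K) ^ (N + c0) ∣ ps hg h ρ - 1 →
      (p : S) ^ N ∣ φ ρ - 1)
    (u : Fin r → (AdjoinRoot g)ˣ) (M : ℕ) (l : Fin r → S)
    (hl : ∀ i, IsLog p ((φ (u i : AdjoinRoot g)) ^ M) (l i)) (c : Fin r → ℤ) (N : ℕ)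
    (hN : 1 ≤ N) (hk2 : ((p : ℕ) : 𝓞 K) ^ (N + c0) ∣
      ((∏ j, (Units.map (ps hg h : AdjoinRoot g →* 𝓞 K) (u j)) ^ c j : (𝓞 K)ˣ) : 𝓞 K) - 1) :
    (p : S) ^ N ∣ ∑ j, ((c j : ℤ) : S) * l j := by
  classical
  have hp : p.Prime := Fact.out
  obtain ⟨-, -, -, -, hB5⟩ := hB p hp S
  obtain ⟨-, hsmall, -⟩ := hB5 hG.tf hG.sep
  set ρ : (AdjoinRoot g)ˣ := ∏ j, u j ^ c j with hρ
  have h1 : (∏ j, (Units.map (ps hg h : AdjoinRoot g →* 𝓞 K) (u j)) ^ c j : (𝓞 K)ˣ) =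
      Units.map (ps hg h : AdjoinRoot g →* 𝓞 K) ρ := by
    rw [hρ, map_prod]
    refine Finset.prod_congr rfl fun j _ => ?_
    rw [map_zpow]
  rw [h1] at hk2
  have h2 : (p : S) ^ N ∣ φ (ρ : AdjoinRoot g) - 1 := hc0 N (ρ : AdjoinRoot g) hk2
  let V : Fin r → Sˣ := fun j => (Units.map (φ : AdjoinRoot g →* S) (u j)) ^ M
  have h3 : IsLog p ((∏ j, V j ^ c j : Sˣ) : S) (∑ j, ((c j : ℤ) : S) * l j) := by
    apply log_prod hB hp
    intro i
    have := hl i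
    simpa [V] using this
  have h4 : (∏ j, V j ^ c j : Sˣ) = (Units.map (φ : AdjoinRoot g →* S) ρ) ^ M := by
    rw [hρ, map_prod, ← Finset.prod_pow]
    refine Finset.prod_congr rfl fun j _ => ?_
    show ((Units.map (φ : AdjoinRoot g →* S) (u j)) ^ M) ^ c j = _
    rw [map_zpow, ← zpow_natCast, ← zpow_mul, mul_comm, zpow_mul, zpow_natCast]
  rw [h4] at h3
  have h5 : (p : S) ^ N ∣ (((Units.map (φ : AdjoinRoot g →* S) ρ) ^ M : Sˣ) : S) - 1 := by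
    rw [Units.val_pow_eq_pow_val]
    exact h2.trans (sub_one_dvd_pow_sub_one _ M)
  exact hsmall _ _ h3 N hN h5

end cong

end Pool.Agent.R89.LQ
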