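import Mathlib
import Pool.Agent.H33R4.EVZ

/-!
# Small values of power series over `ℤ_p`, and a counting lemma
-/

set_option autoImplicit false

namespace Pool.Agent.R89.LQ

open Polynomial Pool.Agent.H33R4

section small

variable {p : ℕ} [hp : Fact p.Prime]

theorem dvd_iff_norm (x : ℤ_[p]) (n : ℕ) :
    (p : ℤ_[p]) ^ n ∣ x ↔ ‖x‖ ≤ (p : ℝ) ^ (-(n : ℤ)) := by
  rw [PadicInt.norm_le_pow_iff_mem_span_pow, Ideal.mem_span_singleton]

/-- a monic polynomial of degree `d` is not small at `d + 1` separated points -/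
theorem poly_small {P : ℤ_[p][X]} (hP : P.Monic) (d : ℕ) (hd : P.natDegree = d) (m : ℕ)
    (s : Fin (d + 1) → ℤ_[p])
    (hs : ∀ i j, i ≠ j → ¬ (p : ℤ_[p]) ^ m ∣ s i - s j) :
    ∃ i, ¬ (p : ℤ_[p]) ^ (d * m + 1) ∣ P.eval (s i) := by
  by_contra hcon
  push Not at hcon
  have hp0 : (0 : ℝ) < p := by exact_mod_cast hp.out.pos
  have hp1 : (1 : ℝ) < p := by exact_mod_cast hp.out.one_lt
  set Q : ℚ_[p][X] := P.map (PadicInt.Coe.ringHom (p := p)) with hQ
  have hQm : Q.Monic := hP.map _
  have hQd : Q.natDegree = d := (hP.natDegree_map _).trans hd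
  have hev : ∀ i, Q.eval ((s i : ℤ_[p]) : ℚ_[p]) = ((P.eval (s i) : ℤ_[p]) : ℚ_[p]) := by
    intro i
    rw [hQ]
    exact Polynomial.eval_map_apply (f := PadicInt.Coe.ringHom (p := p)) (x := s i) (p := P)
  have hinj : Set.InjOn (fun i => ((s i : ℤ_[p]) : ℚ_[p]))
      ((Finset.univ : Finset (Fin (d + 1))) : Set _) := by
    intro i _ j _ hij
    by_contra hne
    apply hs i j hne
    have : s i = s j := PadicInt.ext hij
    rw [this, sub_self]
    exact dvd_zero _
  have hdeg : Q.degree < (Finset.univ : Finset (Fin (d + 1))).card := by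
    rw [Finset.card_univ, Fintype.card_fin]
    refine lt_of_le_of_lt degree_le_natDegree ?_
    rw [hQd]
    exact_mod_cast Nat.lt_succ_self d
  have key := Lagrange.coeff_eq_sum hinj hdeg
  have hcoef : Q.coeff ((Finset.univ : Finset (Fin (d + 1))).card - 1) = 1 := by
    rw [Finset.card_univ, Fintype.card_fin, Nat.add_sub_cancel, ← hQd]
    exact hQm
  rw [hcoef] at key
  have hle : ‖(1 : ℚ_[p])‖ ≤ (p : ℝ)⁻¹ := by
    rw [key]
    apply IsUltrametricDist.norm_sum_le_of_forall_le_of_nonneg (by positivity)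
    intro i _
    rw [norm_div, norm_prod, hev]
    have h1 : ‖((P.eval (s i) : ℤ_[p]) : ℚ_[p])‖ ≤ (p : ℝ) ^ (-((d * m + 1 : ℕ) : ℤ)) := by
      have := (dvd_iff_norm _ _).1 (hcon i)
      simpa using this
    have h2 : ((p : ℝ) ^ (-(m : ℤ))) ^ d ≤
        ∏ j ∈ Finset.univ.erase i, ‖((s i : ℤ_[p]) : ℚ_[p]) - ((s j : ℤ_[p]) : ℚ_[p])‖ := by
      calc ((p : ℝ) ^ (-(m : ℤ))) ^ d = ∏ _j ∈ (Finset.univ : Finset (Fin (d + 1))).erase i,
            (p : ℝ) ^ (-(m : ℤ)) := by
            rw [Finset.prod_const, Finset.card_erase_of_mem (Finset.mem_univ i), Finset.card_univ,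
              Fintype.card_fin, Nat.add_sub_cancel]
        _ ≤ _ := by
            apply Finset.prod_le_prod
            · intro j _
              positivity
            · intro j hj
              have h3 := hs i j (Finset.ne_of_mem_erase hj).symm
              rw [dvd_iff_norm, not_le] at h3
              have h4 : ‖((s i : ℤ_[p]) : ℚ_[p]) - ((s j : ℤ_[p]) : ℚ_[p])‖ = ‖s i - s j‖ := by
                rw [← PadicInt.coe_sub]
                exact (PadicInt.norm_def).symm
              rw [h4]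
              exact h3.le
    calc ‖((P.eval (s i) : ℤ_[p]) : ℚ_[p])‖ /
        ∏ j ∈ Finset.univ.erase i, ‖((s i : ℤ_[p]) : ℚ_[p]) - ((s j : ℤ_[p]) : ℚ_[p])‖ ≤
          (p : ℝ) ^ (-((d * m + 1 : ℕ) : ℤ)) / ((p : ℝ) ^ (-(m : ℤ))) ^ d :=
          div_le_div₀ (by positivity) h1 (by positivity) h2
      _ = (p : ℝ)⁻¹ := by
          rw [zpow_neg, zpow_neg, zpow_natCast, zpow_natCast, inv_pow, ← pow_mul, pow_succ,
            mul_comm m d]
          field_simp
  rw [norm_one] at hle
  have : (p : ℝ)⁻¹ < 1 := inv_lt_one_of_one_lt₀ hp1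
  linarith

/-- a power series is not small at separated points -/
theorem series_small (h : PowerSeries ℤ_[p]) (hh : h ≠ 0) :
    ∃ a d : ℕ, ∀ (m : ℕ) (s : Fin (d + 1) → ℤ_[p])
      (φ : Fin (d + 1) → (PowerSeries ℤ_[p] →+* ℤ_[p])), (∀ i, IsEval p (s i) (φ i)) →
      (∀ i j, i ≠ j → ¬ (p : ℤ_[p]) ^ m ∣ s i - s j) →
      ∃ i, ¬ (p : ℤ_[p]) ^ (a + d * m + 1) ∣ φ i h := by
  classical
  obtain ⟨a, h1, hfac, hres⟩ := EVZaux.factor h hh
  obtain ⟨P, u, hW⟩ := PowerSeries.exists_isWeierstrassFactorization hres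
  have hP : P.Monic := hW.isDistinguishedAt.monic
  refine ⟨a, P.natDegree, fun m s φ hφ hs => ?_⟩
  obtain ⟨i, hi⟩ := poly_small hP _ rfl m s hs
  refine ⟨i, fun hdvd => hi ?_⟩
  rw [hfac, map_mul, (hφ i).2, add_assoc, pow_add] at hdvd
  have hp0 : ((p : ℤ_[p]) ^ a) ≠ 0 := pow_ne_zero _ (NeZero.ne _)
  have h2 := (mul_dvd_mul_iff_left hp0).1 hdvd
  rw [hW.eq_mul, map_mul, EVZaux.eval_poly (hφ i)] at h2
  have h3 : IsUnit ((φ i) u) := hW.isUnit.map (φ i)
  exact h3.dvd_mul_right.1 h2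

end small

/-- the number of the elements of a set which meets at most `d` classes modulo `q` -/
theorem card_sep {d q : ℕ} (hq : 0 < q) {S : Set ℤ}
    (hS : ∀ t : Fin (d + 1) → ℤ, (∀ i, t i ∈ S) → ∃ i j, i ≠ j ∧ (q : ℤ) ∣ t i - t j) (T : ℕ) :
    {t : ℤ | |t| ≤ T ∧ t ∈ S}.ncard ≤ d * (2 * (T / q + 1)) := by
  classical
  set A : Finset ℤ := (Finset.Icc (-(T : ℤ)) T).filter (fun t => t ∈ S) with hA
  have hset : {t : ℤ | |t| ≤ T ∧ t ∈ S} = (A : Set ℤ) := by
    ext t
    simp [hA, abs_le]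
  rw [hset, Set.ncard_coe_finset]
  have hq' : (0 : ℤ) < q := by exact_mod_cast hq
  have himg : (A.image (fun t => t % (q : ℤ))).card ≤ d := by
    by_contra hlt
    push Not at hlt
    obtain ⟨B, hBs, hBc⟩ := Finset.exists_subset_card_eq (Nat.succ_le_of_lt hlt)
    set e : Fin (d + 1) ≃ B := (B.equivFinOfCardEq hBc).symm with he
    have hpre : ∀ i : Fin (d + 1), ∃ t ∈ A, t % (q : ℤ) = (e i : ℤ) := by
      intro i
      have := hBs (e i).2
      rw [Finset.mem_image] at this
      exact this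
    choose t ht hte using hpre
    obtain ⟨i, j, hij, hdvd⟩ := hS t (fun i => (Finset.mem_filter.1 (ht i)).2)
    apply hij
    apply e.injective
    apply Subtype.ext
    rw [← hte i, ← hte j]
    exact (Int.ModEq.symm ((Int.modEq_iff_dvd).2 hdvd))
  have hfib : ∀ b ∈ A.image (fun t => t % (q : ℤ)), (A.filter (fun t => t % (q : ℤ) = b)).card ≤
      2 * (T / q + 1) := by
    intro b _
    have h1 : (A.filter (fun t => t % (q : ℤ) = b)).card ≤
        (Finset.Icc (-((T / q : ℕ) : ℤ) - 1) ((T / q : ℕ) : ℤ)).card := by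
      refine Finset.card_le_card_of_injOn (fun t => t / (q : ℤ)) ?_ ?_
      · intro t ht
        have ht1 := (Finset.mem_filter.1 (Finset.mem_filter.1 ht).1).1
        rw [Finset.mem_Icc] at ht1
        have hT : (T : ℤ) < (((T / q : ℕ) : ℤ) + 1) * q := by
          have h2 : T < (T / q + 1) * q := by
            have h3 := Nat.div_add_mod T q
            have h4 := Nat.mod_lt T hq
            nlinarith
          exact_mod_cast h2
        simp only [Finset.coe_Icc, Set.mem_Icc]
        constructor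
        · rw [Int.le_ediv_iff_mul_le hq']
          nlinarith [ht1.1]
        · have : t / (q : ℤ) < ((T / q : ℕ) : ℤ) + 1 := by
            rw [Int.ediv_lt_iff_lt_mul hq']
            linarith [ht1.2]
          omega
      · intro t ht t' ht' heq
        have e1 := (Finset.mem_filter.1 ht).2
        have e2 := (Finset.mem_filter.1 ht').2
        have e3 := Int.mul_ediv_add_emod t q
        have e4 := Int.mul_ediv_add_emod t' q
        simp only at heq
        rw [← e3, ← e4, heq, e1, e2]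
    refine h1.trans ?_
    rw [Int.card_Icc]
    omega
  have := Finset.card_le_mul_card_image A (2 * (T / q + 1)) hfib
  calc A.card ≤ 2 * (T / q + 1) * (A.image (fun t => t % (q : ℤ))).card := this
    _ ≤ 2 * (T / q + 1) * d := Nat.mul_le_mul_left _ himg
    _ = _ := by ring

end Pool.Agent.R89.LQ
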