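import Mathlib
import Pool.Agent.R89.LQ.Small
import Pool.Agent.R89.LQ.Order
import Pool.Agent.H33R4.Final

/-!
# Tame members of a family: a bound for the loss in the independence of units
-/

set_option autoImplicit false

namespace Pool.Agent.R89.LQ

open Polynomial NumberField Filter Topology Pool.Agent.H33R4
open Pool.Agent.H637R2.Leo (Leopoldt)

/-- `Tame p f u t k`: for the specialisations of the units `u` at `t`, every product of powers which
is congruent to `1` modulo `p ^ N` has all its exponents divisible by `p ^ (N - k)`. -/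
def Tame (p : ℕ) (f : ℤ[X][X]) {r : ℕ} (u : Fin r → (AdjoinRoot f)ˣ) (t : ℤ) (k : ℕ) : Prop :=
  ∀ (K : Type) [Field K] [NumberField K] (φ : AdjoinRoot f →+* 𝓞 K),
    φ (AdjoinRoot.of f X) = t → Module.finrank ℚ K = f.natDegree →
    IntermediateField.adjoin ℚ {((φ (AdjoinRoot.root f) : 𝓞 K) : K)} = ⊤ →
    ∀ (N : ℕ) (c : Fin r → ℤ),
      (p : 𝓞 K) ^ N ∣
        ((∏ i, Units.map (φ : AdjoinRoot f →* 𝓞 K) (u i) ^ c i : (𝓞 K)ˣ) : 𝓞 K) - 1 →
      ∀ i, (p : ℤ) ^ (N - k) ∣ c i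

theorem Tame.mono {p : ℕ} {f : ℤ[X][X]} {r : ℕ} {u : Fin r → (AdjoinRoot f)ˣ} {t : ℤ} {k k' : ℕ}
    (h : Tame p f u t k) (hk : k ≤ k') : Tame p f u t k' :=
  fun K _ _ φ h1 h2 h3 N c hc i =>
    (pow_dvd_pow _ (Nat.sub_le_sub_left hk N)).trans (h K φ h1 h2 h3 N c hc i)

theorem int_dvd_of {p : ℕ} [Fact p.Prime] {n : ℕ} {c : ℤ} (h : (p : ℤ_[p]) ^ n ∣ (c : ℤ_[p])) :
    (p : ℤ) ^ n ∣ c := by
  rw [dvd_iff_norm] at h
  exact (PadicInt.norm_int_le_pow_iff_dvd).1 h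

/-- tameness implies independence over `ℤ_p` -/
theorem Tame.pIndep {p : ℕ} [Fact p.Prime] {f : ℤ[X][X]} {r : ℕ} {u : Fin r → (AdjoinRoot f)ˣ}
    {t : ℤ} {k : ℕ} (h : Tame p f u t k) (K : Type) [Field K] [NumberField K]
    (φ : AdjoinRoot f →+* 𝓞 K) (h1 : φ (AdjoinRoot.of f X) = t)
    (h2 : Module.finrank ℚ K = f.natDegree)
    (h3 : IntermediateField.adjoin ℚ {((φ (AdjoinRoot.root f) : 𝓞 K) : K)} = ⊤) :
    PIndep K p (fun i => Units.map (φ : AdjoinRoot f →* 𝓞 K) (u i)) := by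
  intro m z hz hd
  have hgood : PGood p ℤ_[p] := good1_proof.1 p
  funext i
  apply hgood.sep
  intro N
  obtain ⟨j, hj1, hj2⟩ := ((PB.ev_dvd (hz i) N).and (hd (N + k))).exists
  have h4 := h K φ h1 h2 h3 (N + k) (m j) hj2 i
  rw [Nat.add_sub_cancel] at h4
  have h5 : (p : ℤ_[p]) ^ N ∣ ((m j i : ℤ) : ℤ_[p]) := by
    have := Int.cast_dvd_cast (α := ℤ_[p]) _ _ h4
    simpa using this
  exact (dvd_sub_right h5).1 hj1

/-- polynomials are not annihilated by the parameter -/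
theorem par_ne (p : ℕ) [Fact p.Prime] (t₁ : ℤ) (δ : ℤ[X]) (hδ : δ ≠ 0) :
    Polynomial.eval₂ (Int.castRingHom (PowerSeries ℤ_[p])) (par p t₁) δ ≠ 0 := by
  intro h0
  have hp : p.Prime := Fact.out
  apply hδ
  apply Polynomial.eq_zero_of_infinite_isRoot
  refine Set.Infinite.mono (s := Set.range (fun m : ℕ => t₁ + (p : ℤ) * ((p : ℤ) * m))) ?_ ?_
  · rintro _ ⟨m, rfl⟩
    have hdvd : (p : ℤ_[p]) ∣ (((p : ℤ) * m : ℤ) : ℤ_[p]) := by
      push_cast
      exact dvd_mul_right _ _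
    obtain ⟨φ, hφ⟩ := (evZ_proof p).1 _ hdvd
    have h1 := congrArg φ h0
    rw [Polynomial.hom_eval₂, map_zero, par_map, hφ.1] at h1
    have h2 : (φ.comp (Int.castRingHom (PowerSeries ℤ_[p]))) = Int.castRingHom ℤ_[p] :=
      RingHom.ext_int _ _
    rw [h2] at h1
    have h3 : (((δ.eval (t₁ + (p : ℤ) * ((p : ℤ) * m)) : ℤ)) : ℤ_[p]) = 0 := by
      rw [← h1]
      have h4 := Polynomial.hom_eval₂ δ (RingHom.id ℤ) (Int.castRingHom ℤ_[p])
        (t₁ + (p : ℤ) * ((p : ℤ) * m))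
      rw [RingHom.comp_id, Polynomial.eval₂_id] at h4
      rw [show (((δ.eval (t₁ + (p : ℤ) * ((p : ℤ) * m)) : ℤ)) : ℤ_[p]) = Int.castRingHom ℤ_[p]
        (δ.eval (t₁ + (p : ℤ) * ((p : ℤ) * m))) from rfl, h4]
      simp
    have h5 : δ.eval (t₁ + (p : ℤ) * ((p : ℤ) * m)) = 0 := by exact_mod_cast h3
    exact h5
  · apply Set.infinite_range_of_injective
    intro m m' h
    have hp0 : (p : ℤ) ≠ 0 := by exact_mod_cast hp.ne_zero
    have h1 : (p : ℤ) * ((p : ℤ) * m) = (p : ℤ) * ((p : ℤ) * m') := by simpa using h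
    have h2 := mul_left_cancel₀ hp0 (mul_left_cancel₀ hp0 h1)
    exact_mod_cast h2

theorem key_class (p : ℕ) [Fact p.Prime] (f : ℤ[X][X]) (hf : f.Monic)
    (hsep : (f.map (algebraMap ℤ[X] (FractionRing ℤ[X]))).Separable) (r : ℕ)
    (u : Fin r → (AdjoinRoot f)ˣ)
    (hind : ∀ c : Fin r → ℤ,
      IsIntegral ℤ ((∏ i, u i ^ c i : (AdjoinRoot f)ˣ) : AdjoinRoot f) → c = 0) (hRI : RankI)
    (t₁ : ℤ) :
    ∃ H : PowerSeries ℤ_[p], H ≠ 0 ∧ ∀ t : ℤ, (p : ℤ) ^ 2 ∣ t - t₁ →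
      ∀ φ, IsEval p ((((t - t₁) / p : ℤ)) : ℤ_[p]) φ →
      ∀ k : ℕ, ¬ (p : ℤ_[p]) ^ (k + 1) ∣ φ H → Tame p f u t k := by
  have hp : p.Prime := Fact.out
  obtain ⟨e, he, ϑ, hinj, hsplit⟩ := puis eul_proof f hf hsep
  have hrank := hRI f hf r u hind e he _ ϑ hinj hsplit
  choose U hU using fun i => AdjoinRoot.mk_surjective (u i : AdjoinRoot f)
  choose W hW using fun i => AdjoinRoot.mk_surjective ((u i)⁻¹ : (AdjoinRoot f)ˣ).1
  have huw : ∀ i, f ∣ U i * W i - 1 := by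
    intro i
    rw [← AdjoinRoot.mk_eq_zero, map_sub, map_mul, hU, hW, map_one, sub_eq_zero]
    exact Units.mul_inv _
  set T₁ := par p t₁ with hT₁
  have hgood : PGood p (PowerSeries ℤ_[p]) := good1_proof.2 p _ (good1_proof.1 p)
  have hgoodB : PGood p (AdjoinRoot (spec T₁ f)) := good2_proof p _ _ (spec_monic _ hf) hgood
  obtain ⟨M, hM, hMu⟩ := exists_exponent p f hf t₁ r U W huw
  choose L hL using fun i => logEx_proof p hp _ hgoodB _ (hMu i)
  have dR_par : dR p (par p t₁) = p := by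
    unfold par
    rw [map_add, Derivation.leibniz, Derivation.map_natCast, Derivation.map_intCast]
    simp only [smul_eq_mul]
    have : dR p PowerSeries.X = 1 := PowerSeries.derivative_X (R := ℤ_[p])
    rw [this]
    ring
  obtain ⟨h, hh0, hh⟩ := dual_proof (PowerSeries ℤ_[p]) (spec T₁ f) (spec_monic _ hf) r L
    (fun h hh => form lemA_proof rel_proof eul_proof (dLog_of logB_proof good2_proof derL_proof)
      good1_proof p _ r f hf U W huw ℂ e he ϑ hinj hsplit (hrank U hU) T₁ dR_par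
      M hM L hL h hh)
  obtain ⟨δ, A, hδ0, hδ⟩ := dlog_bezout f (algebraMap ℤ[X] (FractionRing ℤ[X]))
    (IsFractionRing.injective _ _) hsep
  set n := f.natDegree with hn
  refine ⟨h * (Polynomial.eval₂ (Int.castRingHom (PowerSeries ℤ_[p])) T₁ δ) ^ n,
    mul_ne_zero hh0 (pow_ne_zero _ (par_ne p t₁ δ hδ0)), ?_⟩
  rintro t ⟨m, hm⟩ φ hφ k hk K _ _ ψ hψT hKn hgen N c hdiv i
  have hp0 : (p : ℤ) ≠ 0 := by exact_mod_cast hp.ne_zero
  have hs : (t - t₁) / p = p * m := by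
    rw [hm, pow_two, mul_assoc, Int.mul_ediv_cancel_left _ hp0]
  have hφT : φ T₁ = ((t : ℤ) : ℤ_[p]) := by
    rw [hT₁, par_map, hφ.1, hs]
    have : t = t₁ + p * (p * m) := by
      have := hm
      rw [pow_two] at this
      linarith
    rw [this]
    push_cast
    ring
  set g : ℤ[X] := spec t f with hgdef
  have hgm : g.Monic := spec_monic _ hf
  have hgn : g.natDegree = n := hf.natDegree_map _
  set ψr : 𝓞 K := ψ (AdjoinRoot.root f) with hψr
  -- `ψ` on polynomials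
  have hψof : ∀ P : ℤ[X], ψ (AdjoinRoot.of f P) = ((P.eval t : ℤ) : 𝓞 K) := by
    intro P
    have e1 : ψ (AdjoinRoot.of f P) = (ψ.comp (AdjoinRoot.of f)) P := rfl
    have e2 : (ψ.comp (AdjoinRoot.of f)) = (Int.castRingHom (𝓞 K)).comp (Polynomial.evalRingHom t) := by
      apply Polynomial.ringHom_ext
      · intro a; simp
      · simp [hψT]
    rw [e1, e2]
    simp
  have hψmk : ∀ P : ℤ[X][X], ψ (AdjoinRoot.mk f P) = (spec t P).eval₂ (Int.castRingHom (𝓞 K)) ψr := by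
    intro P
    induction P using Polynomial.induction_on' with
    | add P Q hP hQ =>
      rw [map_add, map_add, hP, hQ]
      unfold spec
      rw [Polynomial.map_add, Polynomial.eval₂_add]
    | monomial n a =>
      rw [← Polynomial.C_mul_X_pow_eq_monomial, map_mul, map_mul, map_pow, map_pow, AdjoinRoot.mk_C,
        AdjoinRoot.mk_X, hψof]
      unfold spec
      rw [Polynomial.map_mul, Polynomial.map_pow, Polynomial.map_X, Polynomial.map_C,
        Polynomial.eval₂_mul, Polynomial.eval₂_pow, Polynomial.eval₂_X, Polynomial.eval₂_C]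
      rfl
  have hroot : aeval (ψr : K) g = 0 := by
    have e1 := hψmk f
    rw [AdjoinRoot.mk_self, map_zero] at e1
    have e2 := congrArg (algebraMap (𝓞 K) K) e1
    rw [map_zero, Polynomial.hom_eval₂] at e2
    rw [aeval_def]
    rw [e2]
    rfl
  -- `ψ` factors
  have hfac : ∀ x, PB.ps hgm hroot (st f t x) = ψ x := by
    intro x
    obtain ⟨P, rfl⟩ := AdjoinRoot.mk_surjective x
    rw [st_mk, hψmk]
    apply RingOfIntegers.ext
    rw [PB.ps_mk, aeval_def]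
    have e2 := Polynomial.hom_eval₂ (spec t P) (Int.castRingHom (𝓞 K)) (algebraMap (𝓞 K) K) ψr
    rw [show (algebraMap (𝓞 K) K) (Polynomial.eval₂ (Int.castRingHom (𝓞 K)) ψr (spec t P)) =
      ((Polynomial.eval₂ (Int.castRingHom (𝓞 K)) ψr (spec t P) : 𝓞 K) : K) from rfl] at e2
    rw [e2]
    rfl
  -- the ring over `ℤ_p`
  have hmap : ∀ P : ℤ[X][X], (spec T₁ P).map φ = (spec t P).map (Int.castRingHom ℤ_[p]) := by
    intro P
    rw [spec_map, spec_map, hφT]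
    rfl
  have hG : PGood p (AdjoinRoot ((spec T₁ f).map φ)) :=
    good2_proof p ℤ_[p] _ ((spec_monic _ hf).map _) (good1_proof.1 p)
  -- the discriminant
  have hδφ : φ (Polynomial.eval₂ (Int.castRingHom (PowerSeries ℤ_[p])) T₁ δ) =
      ((δ.eval t : ℤ) : ℤ_[p]) := by
    rw [Polynomial.hom_eval₂, hφT]
    have h2 : (φ.comp (Int.castRingHom (PowerSeries ℤ_[p]))) = Int.castRingHom ℤ_[p] :=
      RingHom.ext_int _ _
    rw [h2]
    have h4 := Polynomial.hom_eval₂ δ (RingHom.id ℤ) (Int.castRingHom ℤ_[p]) t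
    rw [RingHom.comp_id, Polynomial.eval₂_id] at h4
    exact h4.symm
  have hgA : g ∣ derivative g * spec t A - C (δ.eval t) := by
    have h1 := Polynomial.map_dvd (Polynomial.eval₂RingHom (Int.castRingHom ℤ) t) hδ
    rw [Polynomial.map_sub, Polynomial.map_mul, ← Polynomial.derivative_map,
      Polynomial.map_C] at h1
    have h2 : (Polynomial.eval₂RingHom (Int.castRingHom ℤ) t) δ = δ.eval t := by
      simp
    rw [h2] at h1
    exact h1
  rw [map_mul, map_pow, hδφ] at hk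
  have hφh : φ h ≠ 0 := by
    intro h0
    apply hk
    rw [h0, zero_mul]
    exact dvd_zero _
  have hδt : (((δ.eval t) ^ n : ℤ) : ℤ_[p]) ≠ 0 := by
    intro h0
    apply hk
    have : ((δ.eval t : ℤ) : ℤ_[p]) ^ n = 0 := by exact_mod_cast h0
    rw [this, mul_zero]
    exact dvd_zero _
  obtain ⟨v2, w2, hv2⟩ : ∃ (v2 : ℕ) (w2 : ℤ_[p]ˣ), φ h = (w2 : ℤ_[p]) * (p : ℤ_[p]) ^ v2 :=
    ⟨_, _, PadicInt.unitCoeff_spec hφh⟩
  obtain ⟨c0, v, hspec⟩ : ∃ (c0 : ℕ) (v : ℤ_[p]ˣ),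
      (((δ.eval t) ^ n : ℤ) : ℤ_[p]) = (v : ℤ_[p]) * (p : ℤ_[p]) ^ c0 :=
    ⟨_, _, PadicInt.unitCoeff_spec hδt⟩
  have hle : v2 + c0 ≤ k := by
    by_contra hlt
    push Not at hlt
    apply hk
    have e1 : ((δ.eval t : ℤ) : ℤ_[p]) ^ n = (v : ℤ_[p]) * (p : ℤ_[p]) ^ c0 := by
      rw [← hspec]; push_cast; rfl
    rw [e1, hv2]
    refine (pow_dvd_pow _ (Nat.succ_le_of_lt hlt)).trans ?_
    rw [pow_add]
    exact ⟨(w2 : ℤ_[p]) * (v : ℤ_[p]), by ring⟩
  rcases Nat.lt_or_ge k N with hkN | hkN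
  swap
  · rw [Nat.sub_eq_zero_of_le hkN, pow_zero]
    exact one_dvd _
  -- the relation
  have hN' : 1 ≤ N - c0 := by omega
  set N' := N - c0 with hN'def
  have hNe : N = N' + c0 := by omega
  have hEq : (fun i => Units.map (PB.ps hgm hroot : AdjoinRoot g →* 𝓞 K)
      ((fun i => Units.map (st f t : AdjoinRoot f →* _) (u i)) i))
      = (fun i => Units.map (ψ : AdjoinRoot f →* 𝓞 K) (u i)) := by
    funext i
    apply Units.ext
    exact hfac (u i)
  have hdiv' : ((p : ℕ) : 𝓞 K) ^ (N' + c0) ∣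
      ((∏ j, (Units.map (PB.ps hgm hroot : AdjoinRoot g →* 𝓞 K)
        ((fun i => Units.map (st f t : AdjoinRoot f →* _) (u i)) j)) ^ c j : (𝓞 K)ˣ) : 𝓞 K) - 1 := by
    have : (∏ j, (Units.map (PB.ps hgm hroot : AdjoinRoot g →* 𝓞 K)
        ((fun i => Units.map (st f t : AdjoinRoot f →* _) (u i)) j)) ^ c j : (𝓞 K)ˣ) =
        ∏ j, Units.map (ψ : AdjoinRoot f →* 𝓞 K) (u j) ^ c j := by
      refine Finset.prod_congr rfl fun j _ => ?_
      rw [congrFun hEq j]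
    rw [this, ← hNe]
    exact hdiv
  have hrel := rel_dvd (p := p) logB_proof hgm hroot hG
    (AdjoinRoot.map (Int.castRingHom ℤ_[p]) g ((spec T₁ f).map φ) (by rw [hmap])) c0
    (fun N ρ hρ => c0_of hgm hroot (by rw [hKn, hgn]) hgen
      (AdjoinRoot.of ((spec T₁ f).map φ)) hG.tf _ ((δ.eval t) ^ n)
      (fun x => by
        have := exists_y hgm hroot (by rw [hKn, hgn]) hgen hgA x
        rwa [hgn] at this) c0 v hspec N ρ hρ)
    (fun i => Units.map (st f t : AdjoinRoot f →* _) (u i)) M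
    (fun i => AdjoinRoot.map φ _ _ dvd_rfl (L i)) (fun i => by
      have h3 := (logB_proof p hp _).2.2.2.1 _ (AdjoinRoot.map φ (spec T₁ f) ((spec T₁ f).map φ) dvd_rfl)
        _ _ (hL i)
      rw [map_pow, adj_map_mk, hmap (U i)] at h3
      have h5 : (AdjoinRoot.map (Int.castRingHom ℤ_[p]) g ((spec T₁ f).map φ) (by rw [hmap]))
          ((Units.map (st f t : AdjoinRoot f →* _) (u i) : (AdjoinRoot g)ˣ) : AdjoinRoot g)
          = AdjoinRoot.mk ((spec T₁ f).map φ) ((spec t (U i)).map (Int.castRingHom ℤ_[p])) := by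
        have h6 : ((Units.map (st f t : AdjoinRoot f →* _) (u i) : (AdjoinRoot g)ˣ) : AdjoinRoot g)
            = AdjoinRoot.mk g (spec t (U i)) := by
          show st f t (u i : AdjoinRoot f) = _
          rw [← hU i, st_mk]
        rw [h6, adj_map_mk]
      rw [h5]
      exact h3) c N' hN' hdiv'
  -- reduction modulo `p ^ N'`
  let q : ℤ_[p] →+* ℤ_[p] ⧸ Ideal.span {(p : ℤ_[p]) ^ N'} := Ideal.Quotient.mk _
  have hq0 : q ((p : ℤ_[p]) ^ N') = 0 :=
    Ideal.Quotient.eq_zero_iff_mem.2 (Ideal.mem_span_singleton_self _)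
  have hFF : (spec T₁ f).map (q.comp φ) = ((spec T₁ f).map φ).map q := by
    rw [Polynomial.map_map]
  let χ : AdjoinRoot ((spec T₁ f).map φ) →+* AdjoinRoot ((spec T₁ f).map (q.comp φ)) :=
    AdjoinRoot.map q _ _ (by rw [hFF])
  have hχ : ∀ x, χ (AdjoinRoot.map φ (spec T₁ f) ((spec T₁ f).map φ) dvd_rfl x) =
      AdjoinRoot.map (q.comp φ) (spec T₁ f) ((spec T₁ f).map (q.comp φ)) dvd_rfl x := by
    intro x
    obtain ⟨P, rfl⟩ := AdjoinRoot.mk_surjective x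
    rw [adj_map_mk, adj_map_mk, adj_map_mk, Polynomial.map_map]
  have hzero : ∑ j, AdjoinRoot.of ((spec T₁ f).map (q.comp φ)) ((c j : ℤ) :
      ℤ_[p] ⧸ Ideal.span {(p : ℤ_[p]) ^ N'}) *
      AdjoinRoot.map (q.comp φ) (spec T₁ f) ((spec T₁ f).map (q.comp φ)) dvd_rfl (L j) = 0 := by
    obtain ⟨y, hy⟩ := hrel
    have h1 := congrArg χ hy
    rw [map_sum, map_mul, map_pow, map_natCast] at h1
    have h2 : ((p : ℕ) : AdjoinRoot ((spec T₁ f).map (q.comp φ))) ^ N' = 0 := by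
      have := congrArg (AdjoinRoot.of ((spec T₁ f).map (q.comp φ))) hq0
      rw [map_pow, map_natCast, map_pow, map_natCast, map_zero] at this
      exact this
    rw [h2, zero_mul] at h1
    rw [← h1]
    refine Finset.sum_congr rfl fun j _ => ?_
    rw [map_mul, map_intCast, map_intCast, hχ]
  have hfin := hh _ (q.comp φ) (fun j => ((c j : ℤ) : ℤ_[p] ⧸ Ideal.span {(p : ℤ_[p]) ^ N'}))
    hzero i
  have h6 : q (φ h * ((c i : ℤ) : ℤ_[p])) = 0 := by
    rw [map_mul, map_intCast]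
    exact hfin
  have h7 : (p : ℤ_[p]) ^ N' ∣ φ h * ((c i : ℤ) : ℤ_[p]) :=
    Ideal.mem_span_singleton.1 (Ideal.Quotient.eq_zero_iff_mem.1 h6)
  apply int_dvd_of
  refine (pow_dvd_pow _ (show N - k ≤ N' - v2 by omega)).trans ?_
  rcases Nat.lt_or_ge v2 N' with h8 | h8
  · have hp1 : ((p : ℤ_[p]) ^ v2) ≠ 0 := pow_ne_zero _ (NeZero.ne _)
    rw [← mul_dvd_mul_iff_left hp1, ← pow_add, Nat.add_sub_cancel' h8.le]
    rw [hv2, mul_assoc] at h7
    exact w2.isUnit.dvd_mul_left.1 h7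
  · rw [Nat.sub_eq_zero_of_le h8, pow_zero]
    exact one_dvd _

end Pool.Agent.R89.LQ
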