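import Mathlib
import Pool.Agent.R89.LQ.Key
import Pool.Agent.H33R4.RANKI

/-!
# Counting the members of a family with a large loss
-/

set_option autoImplicit false

namespace Pool.Agent.R89.LQ

open Polynomial NumberField Filter Topology Pool.Agent.H33R4
open Pool.Agent.H637R2.Leo (Leopoldt)

section

variable (p : ℕ) [Fact p.Prime] (f : ℤ[X][X]) (hf : f.Monic)
    (hsep : (f.map (algebraMap ℤ[X] (FractionRing ℤ[X]))).Separable) (r : ℕ)
    (u : Fin r → (AdjoinRoot f)ˣ)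
    (hind : ∀ c : Fin r → ℤ,
      IsIntegral ℤ ((∏ i, u i ^ c i : (AdjoinRoot f)ˣ) : AdjoinRoot f) → c = 0)

include hf hsep hind

theorem count_class (t₁ : ℤ) :
    ∃ a d : ℕ, ∀ m T : ℕ,
      {t : ℤ | |t| ≤ T ∧ t ∈ {t : ℤ | (p : ℤ) ^ 2 ∣ t - t₁ ∧ ¬ Tame p f u t (a + d * m)}}.ncard ≤
        d * (2 * (T / p ^ m + 1)) := by
  have hp : p.Prime := Fact.out
  have hp0 : (p : ℤ) ≠ 0 := by exact_mod_cast hp.ne_zero
  obtain ⟨H, hH, hkey⟩ := key_class p f hf hsep r u hind rankI_proof t₁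
  obtain ⟨a, d, had⟩ := series_small H hH
  refine ⟨a, d, fun m T => ?_⟩
  refine card_sep (pow_pos hp.pos m) ?_ T
  intro t ht
  by_contra hcon
  push Not at hcon
  have hdv : ∀ i, (p : ℤ_[p]) ∣ ((((t i - t₁) / p : ℤ)) : ℤ_[p]) := by
    intro i
    obtain ⟨⟨m', hm'⟩, _⟩ := ht i
    rw [hm', pow_two, mul_assoc, Int.mul_ediv_cancel_left _ hp0]
    push_cast
    exact dvd_mul_right _ _
  choose φ hφ using fun i => (evZ_proof p).1 _ (hdv i)
  obtain ⟨i, hi⟩ := had m (fun i => ((((t i - t₁) / p : ℤ)) : ℤ_[p])) φ hφ (by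
    intro i j hij hd
    apply hcon i j hij
    have h1 : (p : ℤ) ^ m ∣ (t i - t₁) / p - (t j - t₁) / p := by
      apply int_dvd_of
      push_cast at hd ⊢
      exact hd
    obtain ⟨⟨m1, hm1⟩, _⟩ := ht i
    obtain ⟨⟨m2, hm2⟩, _⟩ := ht j
    rw [hm1, hm2, pow_two, mul_assoc, mul_assoc, Int.mul_ediv_cancel_left _ hp0,
      Int.mul_ediv_cancel_left _ hp0] at h1
    have h2 : t i - t j = p * ((p : ℤ) * m1 - (p : ℤ) * m2) := by
      have : t i - t j = (t i - t₁) - (t j - t₁) := by ring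
      rw [this, hm1, hm2]
      ring
    rw [h2]
    push_cast
    exact Dvd.dvd.mul_left h1 _)
  exact (ht i).2 (hkey (t i) (ht i).1 (φ i) (hφ i) _ hi)

/-- the number of the members of height at most `T` with loss more than `C + lam m` -/
theorem count_all : ∃ C lam : ℕ, ∀ m T : ℕ,
    {t : ℤ | |t| ≤ T ∧ ¬ Tame p f u t (C + lam * m)}.ncard ≤ C * (T / p ^ m + 1) := by
  classical
  have hp : p.Prime := Fact.out
  choose a d had using fun t₁ : ℕ => count_class p f hf hsep r u hind (t₁ : ℤ)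
  set A := ∑ i ∈ Finset.range (p ^ 2), a i with hA
  set D := ∑ i ∈ Finset.range (p ^ 2), d i with hD
  refine ⟨A + 2 * D, D, fun m T => ?_⟩
  have hsub : {t : ℤ | |t| ≤ T ∧ ¬ Tame p f u t (A + 2 * D + D * m)} ⊆
      ⋃ t₁ ∈ Finset.range (p ^ 2), {t : ℤ | |t| ≤ T ∧
        t ∈ {t : ℤ | (p : ℤ) ^ 2 ∣ t - (t₁ : ℤ) ∧ ¬ Tame p f u t (a t₁ + d t₁ * m)}} := by
    rintro t ⟨hT, ht⟩
    simp only [Set.mem_iUnion]
    have hpos : (0 : ℤ) < (p : ℤ) ^ 2 := by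
      have : (0 : ℤ) < p := by exact_mod_cast hp.pos
      positivity
    have hmem : (t % (p : ℤ) ^ 2).toNat ∈ Finset.range (p ^ 2) := by
      rw [Finset.mem_range]
      have h3 := Int.emod_lt_of_pos t hpos
      have h4 := Int.emod_nonneg t hpos.ne'
      zify
      rw [Int.toNat_of_nonneg h4]
      exact h3
    refine ⟨(t % (p : ℤ) ^ 2).toNat, hmem, hT, ?_, ?_⟩
    · rw [Int.toNat_of_nonneg (Int.emod_nonneg t hpos.ne')]
      exact Int.dvd_self_sub_emod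
    · intro htame
      apply ht
      apply htame.mono
      have h1 : a (t % (p : ℤ) ^ 2).toNat ≤ A := Finset.single_le_sum (fun _ _ => Nat.zero_le _) hmem
      have h2 : d (t % (p : ℤ) ^ 2).toNat ≤ D := Finset.single_le_sum (fun _ _ => Nat.zero_le _) hmem
      have h3 := Nat.mul_le_mul_right m h2
      omega
  have hfin : ∀ t₁ : ℕ, {t : ℤ | |t| ≤ T ∧
        t ∈ {t : ℤ | (p : ℤ) ^ 2 ∣ t - (t₁ : ℤ) ∧ ¬ Tame p f u t (a t₁ + d t₁ * m)}}.Finite := by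
    intro t₁
    refine (Set.finite_Icc (-(T : ℤ)) T).subset ?_
    rintro t ⟨hT, _⟩
    exact abs_le.1 hT
  calc {t : ℤ | |t| ≤ T ∧ ¬ Tame p f u t (A + 2 * D + D * m)}.ncard
      ≤ (⋃ t₁ ∈ Finset.range (p ^ 2), {t : ℤ | |t| ≤ T ∧
        t ∈ {t : ℤ | (p : ℤ) ^ 2 ∣ t - (t₁ : ℤ) ∧ ¬ Tame p f u t (a t₁ + d t₁ * m)}}).ncard :=
        Set.ncard_le_ncard hsub (Set.Finite.biUnion (Finset.finite_toSet _) fun t₁ _ => hfin t₁)
    _ ≤ ∑ t₁ ∈ Finset.range (p ^ 2), {t : ℤ | |t| ≤ T ∧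
        t ∈ {t : ℤ | (p : ℤ) ^ 2 ∣ t - (t₁ : ℤ) ∧ ¬ Tame p f u t (a t₁ + d t₁ * m)}}.ncard :=
        Finset.set_ncard_biUnion_le _ _
    _ ≤ ∑ t₁ ∈ Finset.range (p ^ 2), d t₁ * (2 * (T / p ^ m + 1)) :=
        Finset.sum_le_sum fun t₁ _ => had t₁ m T
    _ = D * (2 * (T / p ^ m + 1)) := by rw [Finset.sum_mul]
    _ ≤ (A + 2 * D) * (T / p ^ m + 1) := by nlinarith [Nat.zero_le (A * (T / p ^ m + 1))]

/-- polynomial loss with at most `log log T` exceptions -/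
theorem count_log : ∃ C : ℕ, ∀ T : ℕ, 2 ≤ T →
    {t : ℤ | 2 ≤ |t| ∧ |t| ≤ T ∧ ¬ Tame p f u t (C * Nat.log 2 t.natAbs)}.ncard ≤
      C * (Nat.log 2 (Nat.log 2 T) + 1) := by
  classical
  have hp : p.Prime := Fact.out
  obtain ⟨C, lam, hC⟩ := count_all p f hf hsep r u hind
  refine ⟨2 * C + 2 * lam, fun T hT => ?_⟩
  have hsub : {t : ℤ | 2 ≤ |t| ∧ |t| ≤ T ∧
      ¬ Tame p f u t ((2 * C + 2 * lam) * Nat.log 2 t.natAbs)} ⊆
      ⋃ i ∈ Finset.range (Nat.log 2 (Nat.log 2 T) + 1),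
        {t : ℤ | |t| ≤ (2 ^ (2 ^ (i + 1)) : ℕ) ∧ ¬ Tame p f u t (C + lam * 2 ^ (i + 1))} := by
    rintro t ⟨h2, hT', ht⟩
    have habs := Int.abs_eq_natAbs t
    have h2' : 2 ≤ t.natAbs := by rw [habs] at h2; exact_mod_cast h2
    have hT2 : t.natAbs ≤ T := by rw [habs] at hT'; exact_mod_cast hT'
    simp only [Set.mem_iUnion]
    have hl1 : 1 ≤ Nat.log 2 t.natAbs := Nat.log_pos (by norm_num) h2'
    set i := Nat.log 2 (Nat.log 2 t.natAbs) with hi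
    have hi1 : 2 ^ i ≤ Nat.log 2 t.natAbs := Nat.pow_log_le_self 2 (by omega)
    have hi2 : Nat.log 2 t.natAbs < 2 ^ (i + 1) := Nat.lt_pow_succ_log_self (by norm_num) _
    have hi3 : t.natAbs < 2 ^ (Nat.log 2 t.natAbs + 1) := Nat.lt_pow_succ_log_self (by norm_num) _
    refine ⟨i, ?_, ?_, ?_⟩
    · rw [Finset.mem_range]
      exact Nat.lt_succ_of_le (Nat.log_mono_right (Nat.log_mono_right hT2))
    · have h3 : t.natAbs ≤ 2 ^ (2 ^ (i + 1)) :=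
        hi3.le.trans (Nat.pow_le_pow_right (by norm_num) (Nat.succ_le_of_lt hi2))
      have h4 : |t| = (t.natAbs : ℤ) := Int.abs_eq_natAbs t
      rw [h4]
      exact_mod_cast h3
    · intro htame
      apply ht
      apply htame.mono
      have h5 : lam * 2 ^ (i + 1) = 2 * lam * 2 ^ i := by rw [pow_succ]; ring
      rw [h5]
      calc C + 2 * lam * 2 ^ i ≤ 2 * C * 2 ^ i + 2 * lam * 2 ^ i := by
            have : 1 ≤ 2 ^ i := Nat.one_le_two_pow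
            nlinarith
        _ = (2 * C + 2 * lam) * 2 ^ i := by ring
        _ ≤ (2 * C + 2 * lam) * Nat.log 2 t.natAbs := Nat.mul_le_mul_left _ hi1
  have hfin : ∀ i : ℕ, {t : ℤ | |t| ≤ (2 ^ (2 ^ (i + 1)) : ℕ) ∧
      ¬ Tame p f u t (C + lam * 2 ^ (i + 1))}.Finite := by
    intro i
    refine (Set.finite_Icc (-((2 ^ (2 ^ (i + 1)) : ℕ) : ℤ)) ((2 ^ (2 ^ (i + 1)) : ℕ) : ℤ)).subset ?_
    rintro t ⟨hT, _⟩
    exact abs_le.1 hT
  calc _ ≤ (⋃ i ∈ Finset.range (Nat.log 2 (Nat.log 2 T) + 1),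
        {t : ℤ | |t| ≤ (2 ^ (2 ^ (i + 1)) : ℕ) ∧
          ¬ Tame p f u t (C + lam * 2 ^ (i + 1))}).ncard :=
        Set.ncard_le_ncard hsub (Set.Finite.biUnion (Finset.finite_toSet _) fun i _ => hfin i)
    _ ≤ ∑ i ∈ Finset.range (Nat.log 2 (Nat.log 2 T) + 1),
        {t : ℤ | |t| ≤ (2 ^ (2 ^ (i + 1)) : ℕ) ∧
          ¬ Tame p f u t (C + lam * 2 ^ (i + 1))}.ncard := Finset.set_ncard_biUnion_le _ _
    _ ≤ ∑ _i ∈ Finset.range (Nat.log 2 (Nat.log 2 T) + 1), (2 * C) := by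
        refine Finset.sum_le_sum fun i _ => ?_
        refine (hC (2 ^ (i + 1)) (2 ^ (2 ^ (i + 1)))).trans ?_
        have h6 : 2 ^ (2 ^ (i + 1)) / p ^ (2 ^ (i + 1)) ≤ 1 := by
          apply Nat.div_le_of_le_mul
          rw [mul_one]
          exact Nat.pow_le_pow_left hp.two_le _
        calc C * (2 ^ (2 ^ (i + 1)) / p ^ (2 ^ (i + 1)) + 1) ≤ C * (1 + 1) :=
              Nat.mul_le_mul_left _ (Nat.add_le_add_right h6 1)
          _ = 2 * C := by ring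
    _ = 2 * C * (Nat.log 2 (Nat.log 2 T) + 1) := by
        rw [Finset.sum_const, Finset.card_range, smul_eq_mul]
        ring
    _ ≤ _ := Nat.mul_le_mul_right _ (by omega)

end

end Pool.Agent.R89.LQ
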