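import Mathlib
import Pool.Agent.R89.LQ.Main

/-!
# Leopoldt's conjecture with a measure of independence in families of number fields

Let `f ∈ ℤ[T][Y]` be monic in `Y` and separable, and let `u_1, …, u_r` be units of `ℤ[T][Y]/(f)`
which are multiplicatively independent modulo constants. The starting result `ZpSpecialisation`
shows that for all but finitely many `t ∈ ℤ` the specialised units `ε_i = u_i(t)` of a number field
`K = ℚ(θ)`, `f(t, θ) = 0`, of degree `deg f` are independent over `ℤ_p`. Here this is made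
quantitative. The integer `t` is called tame with loss `k` if every product `∏ ε_i ^ c_i` which is
congruent to `1` modulo `p ^ N` in the ring of integers of `K` has all its exponents `c_i` divisible
by `p ^ (N - k)`, for all `N`.

(1) All but at most `C (T / p ^ m + 1)` of the `t` with `|t| ≤ T` are tame with loss `C + lam m`.

(2) All but at most `C (log log T + 1)` of the `t` with `2 ≤ |t| ≤ T` are tame with loss
`C log |t|`.
-/

set_option autoImplicit false

namespace Pool.Agent.R89.LQ.SmallRelations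

open Polynomial NumberField
open Pool.Agent.H637R2.Leo (Leopoldt)
open Pool.Agent.H33R4 (PIndep)
open Pool.Agent.R89.LQ (Tame)

/-- Let `f ∈ ℤ[T][Y]` be monic in `Y` and separable over `ℚ(T)`, and let `u_1, …, u_r` be units of
`A = ℤ[T][Y]/(f)` such that `∏ u_i ^ c_i` is integral over `ℤ` only for `c = 0`, and `p` a prime.

(0) If `t` is tame (with any loss) then for all number fields `K = ℚ(θ)` of degree `deg f` and
`φ : A → 𝓞 K`, `T ↦ t`, `Y ↦ θ`, the units `φ(u_i)` are independent over `ℤ_p`, and Leopoldt's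
conjecture holds for `K` and `p` if `r` is the unit rank of `K`.

(1) There are `C`, `lam` such that for all `m`, `T` at most `C (T / p ^ m + 1)` integers `t` with
`|t| ≤ T` are not tame with loss `C + lam m`.

(2) There is `C` such that for all `T ≥ 2` at most `C (log₂ log₂ T + 1)` integers `t` with
`2 ≤ |t| ≤ T` are not tame with loss `C log₂ |t|`. -/
theorem result (p : ℕ) [Fact p.Prime] (f : ℤ[X][X]) (hf : f.Monic)
    (hsep : (f.map (algebraMap ℤ[X] (FractionRing ℤ[X]))).Separable) (r : ℕ)
    (u : Fin r → (AdjoinRoot f)ˣ)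
    (hind : ∀ c : Fin r → ℤ,
      IsIntegral ℤ ((∏ i, u i ^ c i : (AdjoinRoot f)ˣ) : AdjoinRoot f) → c = 0) :
    (∀ (t : ℤ) (k : ℕ), Tame p f u t k →
      ∀ (K : Type) [Field K] [NumberField K] (φ : AdjoinRoot f →+* 𝓞 K),
        φ (AdjoinRoot.of f X) = t → Module.finrank ℚ K = f.natDegree →
        IntermediateField.adjoin ℚ {((φ (AdjoinRoot.root f) : 𝓞 K) : K)} = ⊤ →
        PIndep K p (fun i => Units.map (φ : AdjoinRoot f →* 𝓞 K) (u i)) ∧
          (Units.rank K = r → Leopoldt K p)) ∧
    (∃ C lam : ℕ, ∀ m T : ℕ,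
      {t : ℤ | |t| ≤ T ∧ ¬ Tame p f u t (C + lam * m)}.ncard ≤ C * (T / p ^ m + 1)) ∧
    (∃ C : ℕ, ∀ T : ℕ, 2 ≤ T →
      {t : ℤ | 2 ≤ |t| ∧ |t| ≤ T ∧ ¬ Tame p f u t (C * Nat.log 2 t.natAbs)}.ncard ≤
        C * (Nat.log 2 (Nat.log 2 T) + 1)) := by
  refine ⟨?_, Pool.Agent.R89.LQ.count_all p f hf hsep r u hind,
    Pool.Agent.R89.LQ.count_log p f hf hsep r u hind⟩
  intro t k ht K _ _ φ h1 h2 h3
  have hP := ht.pIndep K φ h1 h2 h3
  exact ⟨hP, fun hr => Pool.Agent.H33R4.PB.leopoldt_of hr p _ hP⟩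

end Pool.Agent.R89.LQ.SmallRelations
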